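import Pool.Agent.H425Sn.Cyc

set_option autoImplicit false
set_option linter.unusedVariables false

namespace Pool.Agent.H425Sn

variable {T : Tab}

def par (T : Tab) (A v : ℕ) : Bool :=
  Nat.beq (((A >>> T.ed v 0) ^^^ (A >>> T.ed v 1) ^^^ (A >>> T.ed v 2)) % 2) 0

/-- `W = A + 2^m B` codes two sets of edges that cover all edges and are even at all vertices but `x,y` -/
def okPair (T : Tab) (x y W : ℕ) : Bool :=
  let A := W % 2 ^ T.m
  let B := W / 2 ^ T.m
  Nat.beq (A ||| B) (2 ^ T.m - 1) &&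
    allLt T.n (fun v => Nat.beq v x || Nat.beq v y || (par T A v && par T B v))

def rowOK (T : Tab) (x : ℕ) : ℕ → List ℕ → Bool
  | y, [] => Nat.ble x y
  | y, W :: t => okPair T x y W && rowOK T x (y + 1) t

theorem rowOK_spec (T : Tab) (x : ℕ) : ∀ (l : List ℕ) (y : ℕ), rowOK T x y l = true →
    ∀ y', y ≤ y' → y' < x → ∃ W, okPair T x y' W = true
  | [], y, h, y', h1, h2 => by
    have h3 : x ≤ y := Nat.le_of_ble_eq_true h
    omega
  | W :: t, y, h, y', h1, h2 => by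
    simp only [rowOK, Bool.and_eq_true] at h
    rcases Nat.eq_or_lt_of_le h1 with h3 | h3
    · exact ⟨W, h3 ▸ h.1⟩
    · exact rowOK_spec T x t (y + 1) h.2 y' h3 h2

def rowsOK (T : Tab) : ℕ → List (List ℕ) → Bool
  | _, [] => true
  | x, r :: t => rowOK T x 0 r && rowsOK T (x + 1) t

theorem rowsOK_spec (T : Tab) : ∀ (l : List (List ℕ)) (x : ℕ), rowsOK T x l = true →
    ∀ x', x ≤ x' → x' < x + l.length → ∀ y, y < x' → ∃ W, okPair T x' y W = true
  | [], x, h, x', h1, h2 => by simp at h2; omega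
  | r :: t, x, h, x', h1, h2 => by
    simp only [rowsOK, Bool.and_eq_true] at h
    intro y hy
    rcases Nat.eq_or_lt_of_le h1 with h3 | h3
    · subst h3
      exact rowOK_spec T _ r 0 h.1 y (Nat.zero_le _) hy
    · exact rowsOK_spec T t (x + 1) h.2 x' h3 (by simp at h2; omega) y hy

def col (a b : Bool) : Fin 3 := if a then (if b then 2 else 1) else 0

theorem col_ne : ∀ a0 a1 a2 b0 b1 b2 : Bool, (xor (xor a0 a1) a2) = false → (xor (xor b0 b1) b2) = false →
    (a0 || b0) = true → (a1 || b1) = true → (a2 || b2) = true →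
    col a0 b0 ≠ col a1 b1 ∧ col a0 b0 ≠ col a2 b2 ∧ col a1 b1 ≠ col a2 b2 := by decide

theorem par_spec {T : Tab} {A v : ℕ} (h : par T A v = true) :
    (xor (xor (A.testBit (T.ed v 0)) (A.testBit (T.ed v 1))) (A.testBit (T.ed v 2))) = false := by
  have h1 : (((A >>> T.ed v 0) ^^^ (A >>> T.ed v 1) ^^^ (A >>> T.ed v 2)) % 2) = 0 :=
    Nat.eq_of_beq_eq_true h
  have h2 : (((A >>> T.ed v 0) ^^^ (A >>> T.ed v 1) ^^^ (A >>> T.ed v 2))).testBit 0 = false := by
    rw [Nat.testBit_zero, h1]; rfl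
  rw [Nat.testBit_xor, Nat.testBit_xor, Nat.testBit_shiftRight, Nat.testBit_shiftRight,
    Nat.testBit_shiftRight, Nat.add_zero, Nat.add_zero, Nat.add_zero] at h2
  exact h2

theorem pair_col (hT : OK T) (x y : Fin T.n) (W : ℕ) (h : okPair T x.1 y.1 W = true) :
    ∃ c : Fin T.n → Fin T.n → Fin 3,
      (∀ u v, (gr T hT).Adj u v → c u v = c v u) ∧
      (∀ u v w, u ≠ x → u ≠ y → (gr T hT).Adj u v → (gr T hT).Adj u w → v ≠ w → c u v ≠ c u w) := by
  simp only [okPair, Bool.and_eq_true] at h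
  obtain ⟨h1, h2⟩ := h
  set A := W % 2 ^ T.m with hA
  set B := W / 2 ^ T.m with hB
  have hAB : A ||| B = 2 ^ T.m - 1 := Nat.eq_of_beq_eq_true h1
  have hnz : ∀ e, e < T.m → (A.testBit e || B.testBit e) = true := by
    intro e he
    rw [← Nat.testBit_or, hAB, Nat.testBit_two_pow_sub_one]
    simpa using he
  refine ⟨fun u v => col (A.testBit (eix T u.1 v.1)) (B.testBit (eix T u.1 v.1)), ?_, ?_⟩
  · intro u v huv
    simp only [eix_symm hT huv]
  · intro u v w hux huy huv huw hvw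
    have h3 := allLt_spec _ _ h2 u.1 u.2
    simp only [Bool.or_eq_true, Bool.and_eq_true] at h3
    rcases h3 with (h3 | h3) | h3
    · exact absurd (Fin.ext (Nat.eq_of_beq_eq_true h3)) hux
    · exact absurd (Fin.ext (Nat.eq_of_beq_eq_true h3)) huy
    · have hc := col_ne _ _ _ _ _ _ (par_spec h3.1) (par_spec h3.2)
        (hnz _ (hT.ed_lt u.1 u.2 0 (by norm_num))) (hnz _ (hT.ed_lt u.1 u.2 1 (by norm_num)))
        (hnz _ (hT.ed_lt u.1 u.2 2 (by norm_num)))
      obtain ⟨k, hk, hkv⟩ := huv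
      obtain ⟨l, hl, hlw⟩ := huw
      have hkl : k ≠ l := by
        rintro rfl
        exact hvw (Fin.ext (hkv.symm.trans hlw))
      simp only [← hkv, ← hlw]
      rw [eix_nb hT u.2 hk, eix_nb hT u.2 hl]
      interval_cases k <;> interval_cases l
      · exact absurd rfl hkl
      · exact hc.1
      · exact hc.2.1
      · exact hc.1.symm
      · exact absurd rfl hkl
      · exact hc.2.2
      · exact hc.2.1.symm
      · exact hc.2.2.symm
      · exact absurd rfl hkl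

theorem bicrit (hT : OK T) (h : ∀ x, x < T.n → ∀ y, y < x → ∃ W, okPair T x y W = true) (x y : Fin T.n)
    (hxy : x ≠ y) : ∃ c : Fin T.n → Fin T.n → Fin 3,
      (∀ u v, u ≠ x → u ≠ y → v ≠ x → v ≠ y → (gr T hT).Adj u v → c u v = c v u) ∧
      (∀ u v w, u ≠ x → u ≠ y → v ≠ x → v ≠ y → w ≠ x → w ≠ y →
        (gr T hT).Adj u v → (gr T hT).Adj u w → v ≠ w → c u v ≠ c u w) := by
  rcases lt_or_gt_of_ne (fun h => hxy (Fin.ext h) : x.1 ≠ y.1) with hlt | hlt
  · obtain ⟨W, hW⟩ := h y.1 y.2 x.1 hlt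
    obtain ⟨c, hc1, hc2⟩ := pair_col hT y x W hW
    exact ⟨c, fun u v _ _ _ _ huv => hc1 u v huv,
      fun u v w h1 h2 _ _ _ _ huv huw hvw => hc2 u v w h2 h1 huv huw hvw⟩
  · obtain ⟨W, hW⟩ := h x.1 x.2 y.1 hlt
    obtain ⟨c, hc1, hc2⟩ := pair_col hT x y W hW
    exact ⟨c, fun u v _ _ _ _ huv => hc1 u v huv,
      fun u v w h1 h2 _ _ _ _ huv huw hvw => hc2 u v w h1 h2 huv huw hvw⟩

end Pool.Agent.H425Sn
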