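import Pool.Agent.H425Sn.Data

set_option autoImplicit false
set_option maxRecDepth 100000

namespace Pool.Agent.H425Sn

theorem ok58 : okTab T58 = true := by decide +kernel
theorem girth58 : okGirth T58 = true := by decide +kernel
theorem lab58 : okLab T58 lab = true := by decide +kernel
theorem tree58 : okTree T58 = true := by decide +kernel
theorem run0 : run T58 (fun _ => 0) 7 prog (List.replicate 7 0) 1 = true := by decide +kernel
theorem runb : run T58 bet 7 prog (List.replicate 7 0) 1 = true := by decide +kernel

end Pool.Agent.H425Sn
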