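import Pool.Agent.H425Sn.Gen

set_option autoImplicit false
set_option linter.unusedVariables false

namespace Pool.Agent.H425Sn

variable {T : Tab}

/-- index of the edge from `u` to its neighbour `w` -/
def eix (T : Tab) (u w : ℕ) : ℕ :=
  if T.nb u 0 = w then T.ed u 0 else if T.nb u 1 = w then T.ed u 1 else T.ed u 2

theorem eix_nb (hT : OK T) {u : ℕ} (hu : u < T.n) {k : ℕ} (hk : k < 3) : eix T u (T.nb u k) = T.ed u k := by
  unfold eix
  have h01 : T.nb u 0 ≠ T.nb u 1 := fun h => by
    have := hT.inj u hu 0 1 (by norm_num) (by norm_num) h; omega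
  have h02 : T.nb u 0 ≠ T.nb u 2 := fun h => by
    have := hT.inj u hu 0 2 (by norm_num) (by norm_num) h; omega
  have h12 : T.nb u 1 ≠ T.nb u 2 := fun h => by
    have := hT.inj u hu 1 2 (by norm_num) (by norm_num) h; omega
  interval_cases k <;> simp_all

theorem eix_symm (hT : OK T) {u w : Fin T.n} (h : (gr T hT).Adj u w) :
    eix T u.1 w.1 = eix T w.1 u.1 := by
  obtain ⟨k, hk, hw⟩ := h
  obtain ⟨l, hl, h1, h2⟩ := hT.back u.1 u.2 k hk
  rw [← hw, eix_nb hT u.2 hk, ← h2, ← eix_nb hT (hT.nb_lt u.1 u.2 k hk) hl, h1]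

theorem eix_lt (hT : OK T) {u w : Fin T.n} (h : (gr T hT).Adj u w) : eix T u.1 w.1 < T.m := by
  obtain ⟨k, hk, hw⟩ := h
  rw [← hw, eix_nb hT u.2 hk]; exact hT.ed_lt u.1 u.2 k hk

/-- the ends of the edge with index `eix u w` are `u, w` -/
theorem eix_ends (hT : OK T) {u w : Fin T.n} (h : (gr T hT).Adj u w) :
    (T.eu (eix T u.1 w.1) = u.1 ∧ T.ev (eix T u.1 w.1) = w.1) ∨
    (T.eu (eix T u.1 w.1) = w.1 ∧ T.ev (eix T u.1 w.1) = u.1) := by
  obtain ⟨k, hk, hw⟩ := h
  rw [← hw, eix_nb hT u.2 hk]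
  rcases hT.ends u.1 u.2 k hk with h | h
  · exact Or.inl h
  · exact Or.inr ⟨h.2, h.1⟩

def starb (T : Tab) (a b c : ℕ) : Bool :=
  let t := fun x => (T.eu b == x || T.ev b == x) && (T.eu c == x || T.ev c == x)
  t (T.eu a) || t (T.ev a)

def okLab (T : Tab) (L : ℕ → ℕ) : Bool :=
  allLt T.n (fun v => Nat.beq (L (T.ed v 0) ^^^ L (T.ed v 1) ^^^ L (T.ed v 2)) 0)

def okCut (T : Tab) (L : ℕ → ℕ) : Bool :=
  allLt T.m (fun a => !(Nat.beq (L a) 0) && allLt a (fun b => !(Nat.beq (L b) (L a)) && allLt b (fun c =>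
    !(Nat.beq (L a ^^^ L b ^^^ L c) 0) || starb T a b c)))

def okTree (T : Tab) : Bool :=
  allLt T.n (fun v => Nat.beq v 0 || Nat.blt (T.nb v 0) v || Nat.blt (T.nb v 1) v || Nat.blt (T.nb v 2) v)

/-- a set closed under adjacency is empty or everything -/
theorem closed_set (hT : OK T) (ht : okTree T = true) (S : Finset (Fin T.n))
    (hS : ∀ u v, u ∈ S → (gr T hT).Adj u v → v ∈ S) {a : Fin T.n} (ha : a ∈ S) (b : Fin T.n) : b ∈ S := by
  have hn : 0 < T.n := lt_of_le_of_lt (Nat.zero_le _) a.2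
  have step : ∀ v : Fin T.n, v.1 ≠ 0 → ∃ w : Fin T.n, w.1 < v.1 ∧ (gr T hT).Adj v w := by
    intro v hv
    have h1 := allLt_spec _ _ ht v.1 v.2
    simp only [Bool.or_eq_true, Nat.blt_eq] at h1
    rcases h1 with ((h1 | h1) | h1) | h1
    · exact absurd (Nat.eq_of_beq_eq_true h1) hv
    · exact ⟨nbF hT v 0, h1, 0, by norm_num, rfl⟩
    · exact ⟨nbF hT v 1, h1, 1, by norm_num, rfl⟩
    · exact ⟨nbF hT v 2, h1, 2, by norm_num, rfl⟩
  have down : ∀ k : ℕ, ∀ v : Fin T.n, v.1 = k → v ∈ S → (⟨0, hn⟩ : Fin T.n) ∈ S := by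
    intro k
    induction k using Nat.strong_induction_on with
    | _ k ih =>
      intro v hv hvS
      by_cases h0 : v.1 = 0
      · have : v = ⟨0, hn⟩ := Fin.ext h0
        rwa [this] at hvS
      · obtain ⟨w, hw, hadj⟩ := step v h0
        exact ih w.1 (hv ▸ hw) w rfl (hS v w hvS hadj)
  have up : ∀ k : ℕ, ∀ v : Fin T.n, v.1 = k → (⟨0, hn⟩ : Fin T.n) ∈ S → v ∈ S := by
    intro k
    induction k using Nat.strong_induction_on with
    | _ k ih =>
      intro v hv h0S
      by_cases h0 : v.1 = 0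
      · have : v = ⟨0, hn⟩ := Fin.ext h0
        rwa [this]
      · obtain ⟨w, hw, hadj⟩ := step v h0
        exact hS w v (ih w.1 (hv ▸ hw) w rfl h0S) hadj.symm
  exact up b.1 b rfl (down a.1 a rfl ha)

/-- bit `i` in `ZMod 2` -/
def bt (i x : ℕ) : ZMod 2 := if x.testBit i then 1 else 0

theorem bt_xor (i x y : ℕ) : bt i (x ^^^ y) = bt i x + bt i y := by
  simp only [bt, Nat.testBit_xor]
  cases x.testBit i <;> cases y.testBit i <;> decide

theorem bt_zero {x : ℕ} (h : ∀ i, bt i x = 0) : x = 0 := by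
  apply Nat.eq_of_testBit_eq
  intro i
  have := h i
  simp only [bt] at this
  rw [Nat.zero_testBit]
  by_contra hh
  rw [Bool.not_eq_false] at hh
  rw [hh] at this
  exact absurd this (by decide)

theorem cut_even (hT : OK T) (L : ℕ → ℕ) (hL : okLab T L = true) (S : Finset (Fin T.n)) (i : ℕ) :
    ∑ p ∈ (Finset.univ : Finset (Fin T.n × Fin T.n)).filter
      (fun p => p.1 ∈ S ∧ p.2 ∉ S ∧ (gr T hT).Adj p.1 p.2), bt i (L (eix T p.1.1 p.2.1)) = 0 := by
  classical
  let z : Fin T.n → Fin T.n → ZMod 2 := fun u w => if (gr T hT).Adj u w then bt i (L (eix T u.1 w.1)) else 0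
  have hz0 : ∀ u : Fin T.n, ∑ w, z u w = 0 := by
    intro u
    rw [sum_nb hT u (z u) (fun w hw => by simp only [z, if_neg hw])]
    have ha : ∀ k : Fin 3, z u (nbF hT u k) = bt i (L (T.ed u.1 k.1)) := by
      intro k
      have : (gr T hT).Adj u (nbF hT u k) := ⟨k.1, k.2, rfl⟩
      simp only [z, if_pos this]
      have e := eix_nb hT u.2 k.2
      simp only [nbF]
      rw [e]
    rw [ha 0, ha 1, ha 2, ← bt_xor, ← bt_xor]
    have h1 := Nat.eq_of_beq_eq_true (allLt_spec _ _ hL u.1 u.2)
    have : (L (T.ed u.1 (0 : Fin 3).1) ^^^ L (T.ed u.1 (1 : Fin 3).1) ^^^ L (T.ed u.1 (2 : Fin 3).1)) = 0 := h1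
    rw [this]; simp [bt]
  have hsym : ∀ u w, z u w = z w u := by
    intro u w
    simp only [z]
    by_cases h : (gr T hT).Adj u w
    · rw [if_pos h, if_pos h.symm, eix_symm hT h]
    · rw [if_neg h, if_neg (fun h' => h h'.symm)]
  have hirr : ∀ u, z u u = 0 := by
    intro u; simp only [z, if_neg ((gr T hT).irrefl)]
  have hSS : ∑ u ∈ S, ∑ w ∈ S, z u w = 0 := by
    rw [← Finset.sum_product']
    apply Finset.sum_involution (fun p _ => (p.2, p.1))
    · intro p hp
      rw [hsym p.2 p.1]
      exact CharTwo.add_self_eq_zero _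
    · intro p hp hne h
      apply hne
      have : p.1 = p.2 := (congrArg Prod.snd h)
      rw [this]; exact hirr _
    · intro p hp
      simp only [Finset.mem_product] at hp ⊢
      exact ⟨hp.2, hp.1⟩
    · intro p hp; rfl
  have htot : ∑ u ∈ S, ∑ w, z u w = 0 := Finset.sum_eq_zero (fun u _ => hz0 u)
  have hsplit : ∑ u ∈ S, ∑ w, z u w = ∑ u ∈ S, ∑ w ∈ S, z u w + ∑ u ∈ S, ∑ w ∈ Sᶜ, z u w := by
    rw [← Finset.sum_add_distrib]
    apply Finset.sum_congr rfl
    intro u _
    exact (Finset.sum_add_sum_compl S (z u)).symm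
  rw [htot, hSS, zero_add] at hsplit
  rw [← Finset.sum_product'] at hsplit
  rw [hsplit]
  symm
  have hsub : (Finset.univ : Finset (Fin T.n × Fin T.n)).filter
      (fun p => p.1 ∈ S ∧ p.2 ∉ S ∧ (gr T hT).Adj p.1 p.2) ⊆ S ×ˢ Sᶜ := by
    intro p hp
    simp only [Finset.mem_filter, Finset.mem_univ, true_and] at hp
    simp only [Finset.mem_product, Finset.mem_compl]
    exact ⟨hp.1, hp.2.1⟩
  rw [← Finset.sum_subset hsub]
  · apply Finset.sum_congr rfl
    intro p hp
    simp only [Finset.mem_filter, Finset.mem_univ, true_and] at hp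
    simp only [z, if_pos hp.2.2]
  · intro p hp hp'
    simp only [Finset.mem_product, Finset.mem_compl] at hp
    simp only [Finset.mem_filter, Finset.mem_univ, true_and, not_and] at hp'
    simp only [z, if_neg (hp' hp.1 hp.2)]

theorem cyc4 (hT : OK T) (L : ℕ → ℕ) (hL : okLab T L = true) (hC : okCut T L = true)
    (ht : okTree T = true) (S : Finset (Fin T.n))
    (h1 : ∃ (v : Fin T.n) (w : (gr T hT).Walk v v), w.IsCycle ∧ ∀ x ∈ w.support, x ∈ S)
    (h2 : ∃ (v : Fin T.n) (w : (gr T hT).Walk v v), w.IsCycle ∧ ∀ x ∈ w.support, x ∉ S) :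
    4 ≤ ((Finset.univ : Finset (Fin T.n × Fin T.n)).filter
      (fun p => p.1 ∈ S ∧ p.2 ∉ S ∧ (gr T hT).Adj p.1 p.2)).card := by
  classical
  -- two adjacent vertices in S and two outside
  have edge_of : ∀ (Q : Fin T.n → Prop), (∃ (v : Fin T.n) (w : (gr T hT).Walk v v), w.IsCycle ∧
      ∀ x ∈ w.support, Q x) → ∃ a b, (gr T hT).Adj a b ∧ Q a ∧ Q b := by
    rintro Q ⟨v, w, hw, hs⟩
    cases w with
    | nil => exact absurd hw (by simp)
    | @cons _ b _ h p =>
      refine ⟨v, b, h, hs v (by simp), hs b ?_⟩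
      simp [SimpleGraph.Walk.support_cons]
  obtain ⟨a1, b1, hab1, ha1, hb1⟩ := edge_of (fun x => x ∈ S) h1
  obtain ⟨a2, b2, hab2, ha2, hb2⟩ := edge_of (fun x => x ∉ S) h2
  set C := (Finset.univ : Finset (Fin T.n × Fin T.n)).filter
      (fun p => p.1 ∈ S ∧ p.2 ∉ S ∧ (gr T hT).Adj p.1 p.2) with hCdef
  have memC : ∀ p, p ∈ C ↔ p.1 ∈ S ∧ p.2 ∉ S ∧ (gr T hT).Adj p.1 p.2 := by
    intro p; simp [hCdef]
  have heven := fun i => cut_even hT L hL S i
  rw [← hCdef] at heven
  have hCa : ∀ a, a < T.m → L a ≠ 0 := by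
    intro a ha h0
    have := allLt_spec _ _ hC a ha
    simp only [Bool.and_eq_true, Bool.not_eq_true'] at this
    rw [h0] at this
    exact absurd this.1 (by decide)
  have hCab : ∀ a b, a < T.m → b < a → L b ≠ L a := by
    intro a b ha hb h0
    have := allLt_spec _ _ hC a ha
    simp only [Bool.and_eq_true, Bool.not_eq_true'] at this
    have := allLt_spec _ _ this.2 b hb
    simp only [Bool.and_eq_true, Bool.not_eq_true'] at this
    rw [h0] at this
    have h3 := this.1
    rw [Nat.beq_refl] at h3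
    exact absurd h3 (by decide)
  have hCabc : ∀ a b c, a < T.m → b < a → c < b → L a ^^^ L b ^^^ L c = 0 → starb T a b c = true := by
    intro a b c ha hb hc h0
    have := allLt_spec _ _ hC a ha
    simp only [Bool.and_eq_true, Bool.not_eq_true'] at this
    have := allLt_spec _ _ this.2 b hb
    simp only [Bool.and_eq_true, Bool.not_eq_true'] at this
    have := allLt_spec _ _ this.2 c hc
    rw [h0] at this
    simpa using this
  -- edge index of a pair
  let e : Fin T.n × Fin T.n → ℕ := fun p => eix T p.1.1 p.2.1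
  have e_lt : ∀ p ∈ C, e p < T.m := fun p hp => eix_lt hT ((memC p).1 hp).2.2
  have e_inj : ∀ p ∈ C, ∀ q ∈ C, e p = e q → p = q := by
    intro p hp q hq hpq
    have hp' := (memC p).1 hp
    have hq' := (memC q).1 hq
    have ep := eix_ends hT hp'.2.2
    have eq := eix_ends hT hq'.2.2
    simp only [e] at hpq
    rw [hpq] at ep
    rcases ep with ⟨x1, x2⟩ | ⟨x1, x2⟩ <;> rcases eq with ⟨y1, y2⟩ | ⟨y1, y2⟩
    · exact Prod.ext (Fin.ext (x1.symm.trans y1)) (Fin.ext (x2.symm.trans y2))
    · exfalso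
      have : p.1 = q.2 := Fin.ext (x1.symm.trans y1)
      exact hq'.2.1 (this ▸ hp'.1)
    · exfalso
      have : p.1 = q.2 := Fin.ext (x2.symm.trans y2)
      exact hq'.2.1 (this ▸ hp'.1)
    · exact Prod.ext (Fin.ext (x2.symm.trans y2)) (Fin.ext (x1.symm.trans y1))
  by_contra hlt
  have hcard : C.card = 0 ∨ C.card = 1 ∨ C.card = 2 ∨ C.card = 3 := by omega
  rcases hcard with h | h | h | h
  · -- empty cut
    rw [Finset.card_eq_zero] at h
    have hcl : ∀ u v, u ∈ S → (gr T hT).Adj u v → v ∈ S := by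
      intro u v hu huv
      by_contra hv
      have : (u, v) ∈ C := (memC _).2 ⟨hu, hv, huv⟩
      rw [h] at this; simp at this
    exact ha2 (closed_set hT ht S hcl ha1 a2)
  · obtain ⟨p, hp⟩ := Finset.card_eq_one.1 h
    have hpC : p ∈ C := by rw [hp]; simp
    apply hCa (e p) (e_lt p hpC)
    apply bt_zero
    intro i
    have := heven i
    rw [hp, Finset.sum_singleton] at this
    exact this
  · obtain ⟨p, q, hpq, hC2⟩ := Finset.card_eq_two.1 h
    have hpC : p ∈ C := by rw [hC2]; simp
    have hqC : q ∈ C := by rw [hC2]; simp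
    have hx : L (e p) ^^^ L (e q) = 0 := by
      apply bt_zero
      intro i
      have := heven i
      rw [hC2, Finset.sum_pair hpq] at this
      rw [bt_xor]; exact this
    have hx' : L (e p) = L (e q) := Nat.xor_eq_zero_iff.1 hx
    have hne : e p ≠ e q := fun h => hpq (e_inj p hpC q hqC h)
    rcases lt_or_gt_of_ne hne with h' | h'
    · exact hCab _ _ (e_lt q hqC) h' hx'
    · exact hCab _ _ (e_lt p hpC) h' hx'.symm
  · obtain ⟨p, q, r, hpq, hpr, hqr, hC3⟩ := Finset.card_eq_three.1 h
    have hpC : p ∈ C := by rw [hC3]; simp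
    have hqC : q ∈ C := by rw [hC3]; simp
    have hrC : r ∈ C := by rw [hC3]; simp
    have hx : L (e p) ^^^ L (e q) ^^^ L (e r) = 0 := by
      apply bt_zero
      intro i
      have := heven i
      rw [hC3, Finset.sum_insert (by simp [hpq, hpr]), Finset.sum_pair hqr] at this
      rw [bt_xor, bt_xor, add_assoc]; exact this
    -- sorted version
    have sorted : ∀ p q r : Fin T.n × Fin T.n, p ∈ C → q ∈ C → r ∈ C → e q < e p → e r < e q →
        L (e p) ^^^ L (e q) ^^^ L (e r) = 0 →
        ∃ x : Fin T.n, (p.1 = x ∨ p.2 = x) ∧ (q.1 = x ∨ q.2 = x) ∧ (r.1 = x ∨ r.2 = x) := by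
      intro p q r hp hq hr h1 h2 hx
      have hs := hCabc (e p) (e q) (e r) (e_lt p hp) h1 h2 hx
      have Ep := eix_ends hT ((memC p).1 hp).2.2
      have Eq := eix_ends hT ((memC q).1 hq).2.2
      have Er := eix_ends hT ((memC r).1 hr).2.2
      simp only [starb, Bool.or_eq_true, Bool.and_eq_true, beq_iff_eq] at hs
      have fin : ∀ (s : Fin T.n × Fin T.n) (x : Fin T.n),
          ((T.eu (eix T s.1.1 s.2.1) = s.1.1 ∧ T.ev (eix T s.1.1 s.2.1) = s.2.1) ∨
          (T.eu (eix T s.1.1 s.2.1) = s.2.1 ∧ T.ev (eix T s.1.1 s.2.1) = s.1.1)) →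
          (T.eu (e s) = x.1 ∨ T.ev (e s) = x.1) → (s.1 = x ∨ s.2 = x) := by
        intro s x hs hx
        rcases hs with ⟨y1, y2⟩ | ⟨y1, y2⟩ <;> rcases hx with hx | hx
        · left; exact Fin.ext (y1.symm.trans hx)
        · right; exact Fin.ext (y2.symm.trans hx)
        · right; exact Fin.ext (y1.symm.trans hx)
        · left; exact Fin.ext (y2.symm.trans hx)
      rcases hs with hs | hs
      · refine ⟨⟨T.eu (e p), (hT.ee _ (e_lt p hp)).1⟩, fin p _ Ep (Or.inl rfl), fin q _ Eq hs.1, fin r _ Er hs.2⟩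
      · refine ⟨⟨T.ev (e p), (hT.ee _ (e_lt p hp)).2.1⟩, fin p _ Ep (Or.inr rfl), fin q _ Eq hs.1, fin r _ Er hs.2⟩
    have hne1 : e p ≠ e q := fun h => hpq (e_inj p hpC q hqC h)
    have hne2 : e p ≠ e r := fun h => hpr (e_inj p hpC r hrC h)
    have hne3 : e q ≠ e r := fun h => hqr (e_inj q hqC r hrC h)
    have star : ∃ x : Fin T.n, (p.1 = x ∨ p.2 = x) ∧ (q.1 = x ∨ q.2 = x) ∧ (r.1 = x ∨ r.2 = x) := by
      rcases lt_or_gt_of_ne hne1 with h1 | h1 <;> rcases lt_or_gt_of_ne hne2 with h2 | h2 <;>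
        rcases lt_or_gt_of_ne hne3 with h3 | h3
      · obtain ⟨x, a, b, c⟩ := sorted r q p hrC hqC hpC h3 h1 (by
          rw [← hx, Nat.xor_comm (L (e r)), Nat.xor_assoc, Nat.xor_comm (L (e r)), ← Nat.xor_assoc,
            Nat.xor_comm (L (e q))])
        exact ⟨x, c, b, a⟩
      · obtain ⟨x, a, b, c⟩ := sorted q r p hqC hrC hpC h3 h2 (by
          rw [← hx, Nat.xor_assoc, Nat.xor_comm (L (e r)), ← Nat.xor_assoc, Nat.xor_comm (L (e q))])
        exact ⟨x, c, a, b⟩
      · omega
      · obtain ⟨x, a, b, c⟩ := sorted q p r hqC hpC hrC h1 h2 (by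
          rw [← hx, Nat.xor_comm (L (e q))])
        exact ⟨x, b, a, c⟩
      · obtain ⟨x, a, b, c⟩ := sorted r p q hrC hpC hqC h2 h1 (by
          rw [← hx, Nat.xor_assoc (L (e r)), Nat.xor_comm (L (e r))])
        exact ⟨x, b, c, a⟩
      · omega
      · obtain ⟨x, a, b, c⟩ := sorted p r q hpC hrC hqC h2 h3 (by
          rw [← hx, Nat.xor_assoc, Nat.xor_comm (L (e r)), ← Nat.xor_assoc])
        exact ⟨x, a, c, b⟩
      · exact sorted p q r hpC hqC hrC h1 h3 hx
    obtain ⟨x, hp, hq, hr⟩ := star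
    have mp := (memC p).1 hpC
    have mq := (memC q).1 hqC
    have mr := (memC r).1 hrC
    by_cases hxS : x ∈ S
    · have hp1 : p.1 = x := by
        rcases hp with h | h
        · exact h
        · exact absurd (h ▸ hxS) mp.2.1
      have hq1 : q.1 = x := by
        rcases hq with h | h
        · exact h
        · exact absurd (h ▸ hxS) mq.2.1
      have hr1 : r.1 = x := by
        rcases hr with h | h
        · exact h
        · exact absurd (h ▸ hxS) mr.2.1
      -- all neighbours of x are outside S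
      have hall : ∀ w, (gr T hT).Adj x w → w ∉ S := by
        have hsub : ({p.2, q.2, r.2} : Finset (Fin T.n)) ⊆ (gr T hT).neighborFinset x := by
          intro w hw
          simp only [Finset.mem_insert, Finset.mem_singleton] at hw
          rw [SimpleGraph.mem_neighborFinset]
          rcases hw with h | h | h
          · rw [h, ← hp1]; exact mp.2.2
          · rw [h, ← hq1]; exact mq.2.2
          · rw [h, ← hr1]; exact mr.2.2
        have hne1 : p.2 ≠ q.2 := fun h => hpq (Prod.ext (hp1.trans hq1.symm) h)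
        have hne2 : p.2 ≠ r.2 := fun h => hpr (Prod.ext (hp1.trans hr1.symm) h)
        have hne3 : q.2 ≠ r.2 := fun h => hqr (Prod.ext (hq1.trans hr1.symm) h)
        have hc3 : ({p.2, q.2, r.2} : Finset (Fin T.n)).card = 3 := Finset.card_eq_three.2
          ⟨p.2, q.2, r.2, hne1, hne2, hne3, rfl⟩
        have heq := Finset.eq_of_subset_of_card_le hsub (by
          rw [hc3, SimpleGraph.card_neighborFinset_eq_degree, regular hT x])
        intro w hw
        rw [← SimpleGraph.mem_neighborFinset, ← heq] at hw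
        simp only [Finset.mem_insert, Finset.mem_singleton] at hw
        rcases hw with h | h | h
        · rw [h]; exact mp.2.1
        · rw [h]; exact mq.2.1
        · rw [h]; exact mr.2.1
      have hcl : ∀ u v, u ∈ S.erase x → (gr T hT).Adj u v → v ∈ S.erase x := by
        intro u v hu huv
        rw [Finset.mem_erase] at hu ⊢
        by_cases hvx : v = x
        · rw [hvx] at huv
          exact absurd hu.2 (hall u huv.symm)
        · refine ⟨hvx, ?_⟩
          by_contra hv
          have : (u, v) ∈ C := (memC _).2 ⟨hu.2, hv, huv⟩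
          rw [hC3] at this
          simp only [Finset.mem_insert, Finset.mem_singleton] at this
          rcases this with h | h | h
          · exact hu.1 (by rw [← hp1, ← h])
          · exact hu.1 (by rw [← hq1, ← h])
          · exact hu.1 (by rw [← hr1, ← h])
      have : ∃ y ∈ S.erase x, True := by
        by_cases h : a1 = x
        · refine ⟨b1, Finset.mem_erase.2 ⟨?_, hb1⟩, trivial⟩
          intro hb; exact hab1.ne (h.trans hb.symm)
        · exact ⟨a1, Finset.mem_erase.2 ⟨h, ha1⟩, trivial⟩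
      obtain ⟨y, hy, _⟩ := this
      have := closed_set hT ht _ hcl hy x
      simp at this
    · have hp1 : p.2 = x := by
        rcases hp with h | h
        · exact absurd (h ▸ mp.1) hxS
        · exact h
      have hq1 : q.2 = x := by
        rcases hq with h | h
        · exact absurd (h ▸ mq.1) hxS
        · exact h
      have hr1 : r.2 = x := by
        rcases hr with h | h
        · exact absurd (h ▸ mr.1) hxS
        · exact h
      have hall : ∀ w, (gr T hT).Adj x w → w ∈ S := by
        have hsub : ({p.1, q.1, r.1} : Finset (Fin T.n)) ⊆ (gr T hT).neighborFinset x := by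
          intro w hw
          simp only [Finset.mem_insert, Finset.mem_singleton] at hw
          rw [SimpleGraph.mem_neighborFinset]
          rcases hw with h | h | h
          · rw [h, ← hp1]; exact mp.2.2.symm
          · rw [h, ← hq1]; exact mq.2.2.symm
          · rw [h, ← hr1]; exact mr.2.2.symm
        have hne1 : p.1 ≠ q.1 := fun h => hpq (Prod.ext h (hp1.trans hq1.symm))
        have hne2 : p.1 ≠ r.1 := fun h => hpr (Prod.ext h (hp1.trans hr1.symm))
        have hne3 : q.1 ≠ r.1 := fun h => hqr (Prod.ext h (hq1.trans hr1.symm))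
        have hc3 : ({p.1, q.1, r.1} : Finset (Fin T.n)).card = 3 := Finset.card_eq_three.2
          ⟨p.1, q.1, r.1, hne1, hne2, hne3, rfl⟩
        have heq := Finset.eq_of_subset_of_card_le hsub (by
          rw [hc3, SimpleGraph.card_neighborFinset_eq_degree, regular hT x])
        intro w hw
        rw [← SimpleGraph.mem_neighborFinset, ← heq] at hw
        simp only [Finset.mem_insert, Finset.mem_singleton] at hw
        rcases hw with h | h | h
        · rw [h]; exact mp.1
        · rw [h]; exact mq.1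
        · rw [h]; exact mr.1
      have hcl : ∀ u v, u ∈ insert x S → (gr T hT).Adj u v → v ∈ insert x S := by
        intro u v hu huv
        rw [Finset.mem_insert] at hu ⊢
        rcases hu with hu | hu
        · right; rw [hu] at huv; exact hall v huv
        · by_contra hv
          rw [not_or] at hv
          have : (u, v) ∈ C := (memC _).2 ⟨hu, hv.2, huv⟩
          rw [hC3] at this
          simp only [Finset.mem_insert, Finset.mem_singleton] at this
          rcases this with h | h | h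
          · exact hv.1 (by rw [← hp1, ← h])
          · exact hv.1 (by rw [← hq1, ← h])
          · exact hv.1 (by rw [← hr1, ← h])
      have hx0 : x ∈ insert x S := by simp
      have : ∃ y, y ∉ insert x S := by
        by_cases h : a2 = x
        · refine ⟨b2, ?_⟩
          rw [Finset.mem_insert, not_or]
          exact ⟨fun hb => hab2.ne (h.trans hb.symm), hb2⟩
        · exact ⟨a2, by rw [Finset.mem_insert, not_or]; exact ⟨h, ha2⟩⟩
      obtain ⟨y, hy⟩ := this
      exact hy (closed_set hT ht _ hcl hx0 y)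

end Pool.Agent.H425Sn
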