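import Pool.Agent.H425Sn.Gen

set_option autoImplicit false
set_option linter.unusedVariables false

namespace Pool.Agent.H425Sn

/-! ### state sets as natural numbers: bit `code` of the number is the state `code` -/

/-- mask of the codes below `4^(j+1+r)` whose digit `j` is `x` -/
def mask (x j : ℕ) : ℕ → ℕ
  | 0 => (2 ^ (4 ^ j) - 1) <<< (x * 4 ^ j)
  | r + 1 => dup (4 ^ (j + 1 + r)) (mask x j r)
where
  dup (s m : ℕ) : ℕ := m ||| (m <<< s) ||| (m <<< (2 * s)) ||| (m <<< (3 * s))

theorem mask_spec (x j : ℕ) (hx : x < 4) : ∀ (r s : ℕ), s < 4 ^ (j + 1 + r) → s / 4 ^ j % 4 = x →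
    (mask x j r).testBit s = true
  | 0, s, hs, hd => by
    have h4 : 0 < 4 ^ j := by positivity
    have hs' : s / 4 ^ j < 4 := by
      rw [Nat.div_lt_iff_lt_mul h4]
      calc s < 4 ^ (j + 1 + 0) := hs
        _ = 4 * 4 ^ j := by ring
    rw [Nat.mod_eq_of_lt hs'] at hd
    have hsx : s = x * 4 ^ j + s % 4 ^ j := by
      have := Nat.div_add_mod s (4 ^ j)
      rw [hd] at this; linarith [Nat.mul_comm (4 ^ j) x]
    have hm : s % 4 ^ j < 4 ^ j := Nat.mod_lt _ h4
    simp only [mask, Nat.testBit_shiftLeft, Bool.and_eq_true, decide_eq_true_eq]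
    refine ⟨by omega, ?_⟩
    rw [Nat.testBit_two_pow_sub_one]
    simp only [decide_eq_true_eq]
    omega
  | r + 1, s, hs, hd => by
    have h4 : 0 < 4 ^ (j + 1 + r) := by positivity
    set P := 4 ^ (j + 1 + r) with hP
    have hq : s / P < 4 := by
      rw [Nat.div_lt_iff_lt_mul h4]
      calc s < 4 ^ (j + 1 + (r + 1)) := hs
        _ = 4 * P := by rw [hP]; ring
    have hsm : s % P < P := Nat.mod_lt _ h4
    have hdm : s % P / 4 ^ j % 4 = x := by
      rw [← hd]
      have hPj : P = 4 ^ j * (4 * 4 ^ r) := by rw [hP]; ring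
      have e : s = s % P + P * (s / P) := (Nat.mod_add_div s P).symm
      conv_rhs => rw [e]
      rw [hPj, Nat.mul_assoc, Nat.add_mul_div_left _ _ (by positivity : 0 < 4 ^ j),
        Nat.mul_assoc, Nat.add_mul_mod_self_left]
    have ih := mask_spec x j hx r (s % P) hsm hdm
    have es : s = P * (s / P) + s % P := (Nat.div_add_mod s P).symm
    simp only [mask, mask.dup, Nat.testBit_or, Nat.testBit_shiftLeft, Bool.or_eq_true, Bool.and_eq_true,
      decide_eq_true_eq]
    have : s / P = 0 ∨ s / P = 1 ∨ s / P = 2 ∨ s / P = 3 := by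
      generalize s / P = q at hq
      omega
    rcases this with h | h | h | h
    · left; left; left
      rw [h] at es
      have : s % P = s := by omega
      rwa [this] at ih
    · left; left; right
      rw [h] at es
      refine ⟨by omega, ?_⟩
      have : s - P = s % P := by omega
      rw [this]; exact ih
    · left; right
      rw [h] at es
      refine ⟨by omega, ?_⟩
      have : s - 2 * P = s % P := by omega
      rw [this]; exact ih
    · right
      rw [h] at es
      refine ⟨by omega, ?_⟩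
      have : s - 3 * P = s % P := by omega
      rw [this]; exact ih

/-- value of a slot: `0` if free, `F e` if it holds edge `e` (stored as `e+1`) -/
def val (F : ℕ → ℕ) : ℕ → ℕ
  | 0 => 0
  | e + 1 => F e

/-- code of the current state -/
def code (F : ℕ → ℕ) : List ℕ → ℕ
  | [] => 0
  | g :: Γ => val F g + 4 * code F Γ

theorem val_lt {F : ℕ → ℕ} (hF : ∀ e, F e < 4) (g : ℕ) : val F g < 4 := by
  cases g with
  | zero => exact (by norm_num : (0 : ℕ) < 4)
  | succ e => exact hF e

theorem code_lt {F : ℕ → ℕ} (hF : ∀ e, F e < 4) : ∀ Γ : List ℕ, code F Γ < 4 ^ Γ.length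
  | [] => by simp [code]
  | g :: Γ => by
    have := code_lt hF Γ
    have h2 := val_lt hF g
    simp only [code, List.length_cons, pow_succ]
    omega

theorem code_digit {F : ℕ → ℕ} (hF : ∀ e, F e < 4) : ∀ (Γ : List ℕ) (j : ℕ),
    code F Γ / 4 ^ j % 4 = val F (Γ.getD j 0)
  | [], j => by simp [code, val]
  | g :: Γ, 0 => by
    have h2 := val_lt hF g
    simp only [code, pow_zero, Nat.div_one, List.getD_cons_zero]
    omega
  | g :: Γ, j + 1 => by
    have h2 := val_lt hF g
    have e1 : code F (g :: Γ) / 4 ^ (j + 1) = code F Γ / 4 ^ j := by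
      rw [pow_succ, Nat.mul_comm, ← Nat.div_div_eq_div_mul]
      congr 1
      simp only [code]
      omega
    rw [e1, List.getD_cons_succ]
    exact code_digit hF Γ j

theorem code_set {F : ℕ → ℕ} : ∀ (Γ : List ℕ) (j g : ℕ), j < Γ.length →
    code F (Γ.set j g) + val F (Γ.getD j 0) * 4 ^ j = code F Γ + val F g * 4 ^ j
  | [], j, g, h => absurd h (by simp)
  | g' :: Γ, 0, g, h => by
    simp only [List.set_cons_zero, code, List.getD_cons_zero, pow_zero]; omega
  | g' :: Γ, j + 1, g, h => by
    have ih := code_set (F := F) Γ j g (by simpa using h)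
    simp only [List.set_cons_succ, code, List.getD_cons_succ, pow_succ]
    nlinarith [ih]

inductive Op
  | opn (e j : ℕ)
  | cls (j : ℕ)
  | chk (v a b c : ℕ)

/-- filter: states whose digits in slots `a b c` xor to `β` (an over-approximation) -/
def flt (K β a b c S : ℕ) : ℕ :=
  let g := fun x y => S &&& (mask x a (K - (a + 1)) &&& mask y b (K - (b + 1)) &&&
    mask (β ^^^ x ^^^ y) c (K - (c + 1)))
  g 1 1 ||| g 1 2 ||| g 1 3 ||| g 2 1 ||| g 2 2 ||| g 2 3 ||| g 3 1 ||| g 3 2 ||| g 3 3

def opS (j S : ℕ) : ℕ := (S <<< (4 ^ j)) ||| (S <<< (2 * 4 ^ j)) ||| (S <<< (3 * 4 ^ j))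

def clS (K j S : ℕ) : ℕ :=
  ((S &&& mask 1 j (K - (j + 1))) >>> (4 ^ j)) |||
  ((S &&& mask 2 j (K - (j + 1))) >>> (2 * 4 ^ j)) |||
  ((S &&& mask 3 j (K - (j + 1))) >>> (3 * 4 ^ j))

/-- run the program; `true` means: every step is legal and the final state set is empty -/
def run (T : Tab) (β : ℕ → ℕ) (K : ℕ) : List Op → List ℕ → ℕ → Bool
  | [], _, S => Nat.beq S 0
  | Op.opn e j :: t, Γ, S => Nat.blt j K && (Γ.getD j 1 == 0) && Nat.blt e T.m &&
      run T β K t (Γ.set j (e + 1)) (opS j S)
  | Op.cls j :: t, Γ, S => Nat.blt j K && Nat.blt 0 (Γ.getD j 0) && run T β K t (Γ.set j 0) (clS K j S)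
  | Op.chk v a b c :: t, Γ, S => Nat.blt v T.n && Nat.blt a K && Nat.blt b K && Nat.blt c K &&
      (Γ.getD a 0 == T.ed v 0 + 1) && (Γ.getD b 0 == T.ed v 1 + 1) && (Γ.getD c 0 == T.ed v 2 + 1) &&
      run T β K t Γ (flt K (β v) a b c S)

theorem xor_lt4 (a b : ℕ) (ha : a < 4) (hb : b < 4) : a ^^^ b < 4 := by
  have : a ^^^ b < 2 ^ 2 := Nat.xor_lt_two_pow (by simpa using ha) (by simpa using hb)
  simpa using this

theorem run_sound (T : Tab) (β : ℕ → ℕ) (K : ℕ) (F : ℕ → ℕ) (hF : ∀ e, F e < 4)
    (hF1 : ∀ e, e < T.m → 1 ≤ F e)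
    (hed : ∀ v, v < T.n → ∀ k, k < 3 → T.ed v k < T.m)
    (hv : ∀ v, v < T.n → F (T.ed v 0) ^^^ F (T.ed v 1) ^^^ F (T.ed v 2) = β v) :
    ∀ (P : List Op) (Γ : List ℕ) (S : ℕ), Γ.length = K → (∀ j g, Γ.getD j 0 = g + 1 → g < T.m) →
      S.testBit (code F Γ) = true → run T β K P Γ S = true → False
  | [], Γ, S, hl, hm, hS, hr => by
    have : S = 0 := Nat.eq_of_beq_eq_true hr
    rw [this] at hS
    simp at hS
  | Op.opn e j :: t, Γ, S, hl, hm, hS, hr => by
    simp only [run, Bool.and_eq_true, beq_iff_eq, Nat.blt_eq] at hr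
    obtain ⟨⟨⟨hj, h0⟩, he⟩, hr⟩ := hr
    have h0' : Γ.getD j 0 = 0 := by
      rw [List.getD_eq_getElem _ _ (hl ▸ hj)] at h0 ⊢; exact h0
    refine run_sound T β K F hF hF1 hed hv t _ _ (by simpa using hl) ?_ ?_ hr
    · intro i g hg
      by_cases hij : i = j
      · subst hij
        rw [List.getD_eq_getElem _ _ (by rw [List.length_set]; exact hl ▸ hj), List.getElem_set_self] at hg
        omega
      · apply hm i g
        rw [← hg]
        simp only [List.getD_eq_getElem?_getD]
        rw [List.getElem?_set_ne (fun h => hij h.symm)]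
    · have hc := code_set (F := F) Γ j (e + 1) (hl ▸ hj)
      rw [h0'] at hc
      simp only [val, Nat.zero_mul, Nat.add_zero] at hc
      rw [hc]
      have h1 := hF1 e he
      have h2 := hF e
      have : F e = 1 ∨ F e = 2 ∨ F e = 3 := by omega
      simp only [opS, Nat.testBit_or, Nat.testBit_shiftLeft, Bool.or_eq_true, Bool.and_eq_true,
        decide_eq_true_eq]
      rcases this with h | h | h
      · left; left; rw [h]; simpa using hS
      · left; right; rw [h]; simpa using hS
      · right; rw [h]; simpa using hS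
  | Op.cls j :: t, Γ, S, hl, hm, hS, hr => by
    simp only [run, Bool.and_eq_true, Nat.blt_eq] at hr
    obtain ⟨⟨hj, h0⟩, hr⟩ := hr
    obtain ⟨e, he⟩ : ∃ e, Γ.getD j 0 = e + 1 := ⟨Γ.getD j 0 - 1, by omega⟩
    have hem := hm j e he
    refine run_sound T β K F hF hF1 hed hv t _ _ (by simpa using hl) ?_ ?_ hr
    · intro i g hg
      by_cases hij : i = j
      · subst hij
        rw [List.getD_eq_getElem _ _ (by rw [List.length_set]; exact hl ▸ hj), List.getElem_set_self] at hg
        omega
      · apply hm i g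
        rw [← hg]
        simp only [List.getD_eq_getElem?_getD]
        rw [List.getElem?_set_ne (fun h => hij h.symm)]
    · have hc := code_set (F := F) Γ j 0 (hl ▸ hj)
      have hd := code_digit hF Γ j
      have hlt := code_lt hF Γ
      rw [he] at hc hd
      simp only [val, Nat.zero_mul, Nat.add_zero] at hc hd
      have h1 := hF1 e hem
      have h2 := hF e
      have h123 : F e = 1 ∨ F e = 2 ∨ F e = 3 := by omega
      have hKj : j + 1 + (K - (j + 1)) = K := by omega
      have hmask := mask_spec (F e) j h2 (K - (j + 1)) (code F Γ) (by rw [hKj, ← hl]; exact hlt) hd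
      have key : ((S &&& mask (F e) j (K - (j + 1))) >>> (F e * 4 ^ j)).testBit
          (code F (Γ.set j 0)) = true := by
        rw [Nat.testBit_shiftRight, Nat.add_comm (F e * 4 ^ j), hc, Nat.testBit_and, hS, hmask]; rfl
      simp only [clS, Nat.testBit_or, Bool.or_eq_true]
      rcases h123 with h | h | h
      · left; left; rw [h] at key; simpa using key
      · left; right; rw [h] at key; exact key
      · right; rw [h] at key; exact key
  | Op.chk v a b c :: t, Γ, S, hl, hm, hS, hr => by
    simp only [run, Bool.and_eq_true, beq_iff_eq, Nat.blt_eq] at hr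
    obtain ⟨⟨⟨⟨⟨⟨⟨hvn, ha⟩, hb⟩, hc⟩, ha'⟩, hb'⟩, hc'⟩, hr⟩ := hr
    refine run_sound T β K F hF hF1 hed hv t Γ _ hl hm ?_ hr
    have hlt := code_lt hF Γ
    have hx := hv v hvn
    have hda := code_digit hF Γ a
    have hdb := code_digit hF Γ b
    have hdc := code_digit hF Γ c
    rw [ha'] at hda
    rw [hb'] at hdb
    rw [hc'] at hdc
    simp only [val] at hda hdb hdc
    have hc3 : F (T.ed v 2) = β v ^^^ F (T.ed v 0) ^^^ F (T.ed v 1) := by
      rw [← hx]
      generalize F (T.ed v 0) = p
      generalize F (T.ed v 1) = q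
      generalize F (T.ed v 2) = r
      apply Nat.eq_of_testBit_eq
      intro i
      simp only [Nat.testBit_xor]
      cases p.testBit i <;> cases q.testBit i <;> cases r.testBit i <;> rfl
    have hKa : a + 1 + (K - (a + 1)) = K := by omega
    have hKb : b + 1 + (K - (b + 1)) = K := by omega
    have hKc : c + 1 + (K - (c + 1)) = K := by omega
    have ma := mask_spec _ a (hF (T.ed v 0)) (K - (a + 1)) (code F Γ) (by rw [hKa, ← hl]; exact hlt) hda
    have mb := mask_spec _ b (hF (T.ed v 1)) (K - (b + 1)) (code F Γ) (by rw [hKb, ← hl]; exact hlt) hdb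
    have mc := mask_spec _ c (hF (T.ed v 2)) (K - (c + 1)) (code F Γ) (by rw [hKc, ← hl]; exact hlt) hdc
    rw [hc3] at mc
    have g0 : F (T.ed v 0) = 1 ∨ F (T.ed v 0) = 2 ∨ F (T.ed v 0) = 3 := by
      have := hF1 _ (hed v hvn 0 (by norm_num)); have := hF (T.ed v 0); omega
    have g1 : F (T.ed v 1) = 1 ∨ F (T.ed v 1) = 2 ∨ F (T.ed v 1) = 3 := by
      have := hF1 _ (hed v hvn 1 (by norm_num)); have := hF (T.ed v 1); omega
    simp only [flt, Nat.testBit_or, Nat.testBit_and, Bool.or_eq_true, Bool.and_eq_true]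
    rcases g0 with g0 | g0 | g0 <;> rcases g1 with g1 | g1 | g1 <;> rw [g0] at ma mc <;>
      rw [g1] at mb mc <;> simp only [hS, ma, mb, mc] <;> simp

/-- there is no assignment of values `1,2,3` to the edges with boundary `β` -/
theorem no_flow (T : Tab) (hT : OK T) (β : ℕ → ℕ) (K : ℕ) (P : List Op)
    (hr : run T β K P (List.replicate K 0) 1 = true) (F : ℕ → ℕ)
    (hF : ∀ e, e < T.m → 1 ≤ F e ∧ F e < 4)
    (hv : ∀ v, v < T.n → F (T.ed v 0) ^^^ F (T.ed v 1) ^^^ F (T.ed v 2) = β v) : False := by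
  let F' : ℕ → ℕ := fun e => if e < T.m then F e else 0
  have hF' : ∀ e, F' e < 4 := by
    intro e; simp only [F']; split_ifs with h
    · exact (hF e h).2
    · norm_num
  have hF1 : ∀ e, e < T.m → 1 ≤ F' e := by
    intro e he; simp only [F', if_pos he]; exact (hF e he).1
  refine run_sound T β K F' hF' hF1 hT.ed_lt ?_ P (List.replicate K 0) 1 (by simp) ?_ ?_ hr
  · intro v hvn
    simp only [F', if_pos (hT.ed_lt v hvn 0 (by norm_num)), if_pos (hT.ed_lt v hvn 1 (by norm_num)),
      if_pos (hT.ed_lt v hvn 2 (by norm_num))]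
    exact hv v hvn
  · intro j g hg
    exfalso
    rw [List.getD_eq_getElem?_getD] at hg
    rcases lt_or_ge j K with h | h
    · rw [List.getElem?_replicate_of_lt h] at hg; simp at hg
    · rw [List.getElem?_eq_none (by simpa using h)] at hg; simp at hg
  · have : ∀ k, code F' (List.replicate k 0) = 0 := by
      intro k
      induction k with
      | zero => rfl
      | succ k ih => simp only [List.replicate_succ, code, val, ih]
    rw [this]; decide

end Pool.Agent.H425Sn
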