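import Pool.Agent.H425Sn.Data

set_option autoImplicit false
set_option maxRecDepth 100000

namespace Pool.Agent.H425Sn

def rows7 : List (List ℕ) :=
  [[0x2dbdb6e67e6e6dedced3ee2edcf3b7c7afa73cf3db73, 0x2bbb6d66f6de6eddced39f6edb6dbb3b737ad5eb5bdd, 0x1e59de6de6dedb9db73adae7cf4f7cb6cf6ce79dbade, 0x376db6dd9e6ebe73cedadf5b7cf3ccfb72dbdb6e6ecd, 0x376db6ee5b67d3edced3af35a79e7bcdbd7cb5eb5dad, 0x3ad3cf3b99dbd3edb7376f5b7cf3ccfcdcdb6ed9f373, 0x376db6ee59dbd3edced2fadb7cf3a77cdcdb6e76fecb, 0x376db6ee59dbd3ee79e765b5a79e7b7cdc7b679db5f5, 0x2dbe79e67e6e6dedced3b9b5a79e7bcf6b7cb5eb5dad, 0x1cd6dbbb69dbd3ee79f765d776dacdef6adb3b6e75f5, 0x376db6ee59dbd3b76cdd6f35a79e7b7cdc7bd5b6e773, 0x2b99de6de6dedb9db3cd9f79ef4f6cbb737ad5be75f5, 0x3cf7a7b65e6ebe73b7cd9f5ed3bcdb7b72dbdcf9eecb,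 0x1e5b6d6dbe6e6db76edafae77b6dadaf6b7cb5eb5b3e, 0x376db6ded3d7b65afcbafadb3cf3dadcddb76e8f9b3e, 0x13e6dbbb69dbe6777cbafafcf6dacdaf6bb73bb79b3e, 0x33e6dbbe59dbb673cedafabcb6dadbcf6bb73deb5b3e, 0x376db6db99dbd3b5cedd6f5776dacdef6addbcf3cf2b, 0x376e79db9b67d3e73b7765db7b6dccfb72db7b9db5f5, 0x376db6db99dbd3edcedd6f39edb76cfcdc7b676e75f5, 0x376e79dd9db9be6adbcd9f39af4f76d6cfa7eed9eecb, 0x376e79dd9db9bc73cedd6f39ef4f66dcddb7dcf3cf2b, 0x2b9b6d6dbe6e6ef73b7765aedb6db7c7afa73b9db5f5, 0x2de6dbbe79db36f73b7765e77b6da73cdddadb9db5f5, 0x1cd7a7bb69dbf673cedd6f5773bccdef6adb3b6e75f5, 0x2f69de6de6deed9dcedd6f79af4f7cb6cf6ce76e75f5, 0x1cd7a7bd6db9b673cedd6f5773bccdedbcdb3b6e75f5, 0x13be79d3e6eddbee79e795f9af4f7cb3b76ce79dbade, 0x139e79dbb9de6d9dcedd6f7cf3bccdaf6bb7dcf3cf2b, 0x376e79dd9f27b673cedd6f35e79e67cdf3b7dcf3cf2b,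 0x3ad3cf3b99eedbee79e795db7cf3ccfe6adb3b9dbade, 0x3e7b6d66d7b9ddb3cedd6f5bcdb776d3afccbb6e75f5, 0x3e7b6d66d7d7e65dcedd6f27cdb776d373bb676e75f5, 0x176e79dde53bb673cedd6f5b7b6dccfdbcdb3b6e75f5, 0x2dbe79d3be6eddb3cedd6f3cb3bcdde7afccbb6e75f5, 0x376e79db93d7e65dcedd6f39ef4f6cfb727b676e75f5, 0x376e79ed5db9ddb3cedd6f5b7b6dad7cdc77dcf3cf2b, 0x1cd6dbbf6b67b673cedd6f5776dacdedbcdb3b6e75f5, 0x1cd7a7be7db93db3cedd6f5773bccbc7afccbb6e75f5, 0x2de7a7bd6db9dbee79e795bcf3bccdedbcdb3b9dbade, 0x3e59de6d9e6eddb3cedd6f27cf4f37c7afccbb6e75f5, 0x339db6ed9e6eddb3cedd6f5bcdb777c7afccbb6e75f5, 0x1cd6f4dbe3d7e65dcedd6f5773b76cfb727b676e75f5, 0x1cf6dbb67e6e3db3cedd6f6edb6cdb3b73b7dcf3cf2b, 0x2b99df3dbdb93db3cedd6f2edcf3b7c7afccbb6e75f5, 0x3e79f6e65e6eddb3cedd6f273cf3b7c7afccbb6e75f5, 0x2dbe5bb67db93db3cedd6f35a7cbb7c7afccbb6e75f5,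 0x376f3e6d9e6eddb3cedd6f5733cbb7c7afccbb6e75f5, 0x376dde6d9db9ddb3cedd6f5774776cfcdc77dcf3cf2b, 0x2f6bcf3dbdb93db3cedd6f39acf3b7c7afccbb6e75f5, 0x376db6e65e6eddb3cedd6f35e79e77c7afccbb6e75f5, 0x1cddb6ddbe6e3db3cedd6f677cf3ccbb73b7dcf3cf2b, 0x377db6e65e6eddb3cedd6f57a79e77c7afccbb6e75f5, 0x139db6ddbe6e3db3cedd6f78fcf3ccbb73b7dcf3cf2b, 0x1e5db6ddbdb93db3cedd6f57c79e77c7afccbb6e75f5, 0x1be3cf3dbdb93db3cedd6f5b3cf3b7c7afccbb6e75f5, 0x376e79ddbdb93db3cedd6f5733bcdda7afccbb6e75f5]]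

theorem rows7_len : rows7.length = 1 := rfl
theorem rows7_ok : rowsOK T58 57 rows7 = true := by decide +kernel

end Pool.Agent.H425Sn
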