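import Pool.Agent.H425Sn.Chk
import Pool.Agent.H425Sn.ChkCut
import Pool.Agent.H425Sn.Row0
import Pool.Agent.H425Sn.Row1
import Pool.Agent.H425Sn.Row2
import Pool.Agent.H425Sn.Row3
import Pool.Agent.H425Sn.Row4
import Pool.Agent.H425Sn.Row5
import Pool.Agent.H425Sn.Row6
import Pool.Agent.H425Sn.Row7

set_option autoImplicit false
set_option maxRecDepth 100000

namespace Pool.Agent.H425Sn

theorem hbic58 : ∀ x, x < T58.n → ∀ y, y < x → ∃ W, okPair T58 x y W = true := by
  intro x hx y hy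
  have hx' : x < 58 := hx
  by_cases h0 : x < 21
  · exact rowsOK_spec T58 rows0 0 rows0_ok x (by omega) (by rw [rows0_len]; omega) y hy
  by_cases h1 : x < 30
  · exact rowsOK_spec T58 rows1 21 rows1_ok x (by omega) (by rw [rows1_len]; omega) y hy
  by_cases h2 : x < 37
  · exact rowsOK_spec T58 rows2 30 rows2_ok x (by omega) (by rw [rows2_len]; omega) y hy
  by_cases h3 : x < 43
  · exact rowsOK_spec T58 rows3 37 rows3_ok x (by omega) (by rw [rows3_len]; omega) y hy
  by_cases h4 : x < 48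
  · exact rowsOK_spec T58 rows4 43 rows4_ok x (by omega) (by rw [rows4_len]; omega) y hy
  by_cases h5 : x < 53
  · exact rowsOK_spec T58 rows5 48 rows5_ok x (by omega) (by rw [rows5_len]; omega) y hy
  by_cases h6 : x < 57
  · exact rowsOK_spec T58 rows6 53 rows6_ok x (by omega) (by rw [rows6_len]; omega) y hy
  exact rowsOK_spec T58 rows7 57 rows7_ok x (by omega) (by rw [rows7_len]; omega) y hy

/-- the boundary that is not realised -/
def bb (v : Fin T58.n) : ZMod 2 × ZMod 2 := (((bet v.1 % 2 : ℕ) : ZMod 2), ((bet v.1 / 2 : ℕ) : ZMod 2))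

theorem bb_zc : ∀ v : Fin T58.n, zc (bb v) = bet v.1 := by
  have h : ∀ v : Fin 58, zc ((((bet v.1 % 2 : ℕ) : ZMod 2), ((bet v.1 / 2 : ℕ) : ZMod 2))) = bet v.1 := by
    decide +kernel
  exact h

theorem bb_sum : ∑ v, bb v = 0 := by
  have h : ∑ v : Fin 58, ((((bet v.1 % 2 : ℕ) : ZMod 2), ((bet v.1 / 2 : ℕ) : ZMod 2)) : ZMod 2 × ZMod 2) = 0 := by
    decide +kernel
  exact h

theorem bb_ne : bb ≠ 0 := by
  intro h
  have h1 : bb ⟨0, by decide⟩ = 0 := by rw [h]; rfl
  revert h1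
  decide +kernel

end Pool.Agent.H425Sn
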