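import Mathlib

set_option autoImplicit false
set_option linter.unusedVariables false

namespace Pool.Agent.H425Sn

/-! ### bounded quantifiers evaluated by the kernel -/

def allLt : ℕ → (ℕ → Bool) → Bool
  | 0, _ => true
  | k + 1, p => p k && allLt k p

theorem allLt_spec : ∀ (n : ℕ) (p : ℕ → Bool), allLt n p = true → ∀ i, i < n → p i = true
  | 0, _, _, i, h => absurd h (Nat.not_lt_zero i)
  | k + 1, p, hp, i, h => by
    simp only [allLt, Bool.and_eq_true] at hp
    rcases Nat.lt_succ_iff_lt_or_eq.1 h with h' | h'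
    · exact allLt_spec k p hp.2 i h'
    · rw [h']; exact hp.1

/-- A cubic graph given by tables: `nb v k` is the `k`-th neighbour of `v`, `ed v k` the index of the
`k`-th edge at `v`, and `eu e`, `ev e` are the two ends of edge `e`. -/
structure Tab where
  n : ℕ
  m : ℕ
  nb : ℕ → ℕ → ℕ
  ed : ℕ → ℕ → ℕ
  eu : ℕ → ℕ
  ev : ℕ → ℕ

variable (T : Tab)

def adjb (u v : ℕ) : Bool := T.nb u 0 == v || T.nb u 1 == v || T.nb u 2 == v

/-- basic consistency of the tables -/
def okTab : Bool :=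
  allLt T.n (fun v => allLt 3 (fun k =>
    decide (T.nb v k < T.n) && decide (T.ed v k < T.m) && !(T.nb v k == v) &&
    ((T.nb (T.nb v k) 0 == v && T.ed (T.nb v k) 0 == T.ed v k) ||
     (T.nb (T.nb v k) 1 == v && T.ed (T.nb v k) 1 == T.ed v k) ||
     (T.nb (T.nb v k) 2 == v && T.ed (T.nb v k) 2 == T.ed v k)) &&
    ((T.eu (T.ed v k) == v && T.ev (T.ed v k) == T.nb v k) ||
     (T.ev (T.ed v k) == v && T.eu (T.ed v k) == T.nb v k)))) &&
  allLt T.n (fun v => !(T.nb v 0 == T.nb v 1) && !(T.nb v 0 == T.nb v 2) && !(T.nb v 1 == T.nb v 2)) &&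
  allLt T.m (fun e => decide (T.eu e < T.n) && decide (T.ev e < T.n) && adjb T (T.eu e) (T.ev e))

structure OK : Prop where
  nb_lt : ∀ v, v < T.n → ∀ k, k < 3 → T.nb v k < T.n
  ed_lt : ∀ v, v < T.n → ∀ k, k < 3 → T.ed v k < T.m
  nb_ne : ∀ v, v < T.n → ∀ k, k < 3 → T.nb v k ≠ v
  back : ∀ v, v < T.n → ∀ k, k < 3 → ∃ l, l < 3 ∧ T.nb (T.nb v k) l = v ∧ T.ed (T.nb v k) l = T.ed v k
  ends : ∀ v, v < T.n → ∀ k, k < 3 → (T.eu (T.ed v k) = v ∧ T.ev (T.ed v k) = T.nb v k) ∨
    (T.ev (T.ed v k) = v ∧ T.eu (T.ed v k) = T.nb v k)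
  inj : ∀ v, v < T.n → ∀ k l, k < 3 → l < 3 → T.nb v k = T.nb v l → k = l
  ee : ∀ e, e < T.m → T.eu e < T.n ∧ T.ev e < T.n ∧ ∃ k, k < 3 ∧ T.nb (T.eu e) k = T.ev e

theorem ok_of (h : okTab T = true) : OK T := by
  simp only [okTab, Bool.and_eq_true] at h
  obtain ⟨⟨h1, h2⟩, h3⟩ := h
  have h1' := fun v hv k hk => allLt_spec 3 _ (allLt_spec _ _ h1 v hv) k hk
  have h2' := fun v hv => allLt_spec _ _ h2 v hv
  have h3' := fun e he => allLt_spec _ _ h3 e he
  simp only [Bool.and_eq_true, Bool.or_eq_true, decide_eq_true_eq, beq_iff_eq, Bool.not_eq_true',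
    beq_eq_false_iff_ne, adjb, ne_eq] at h1' h2' h3'
  refine ⟨fun v hv k hk => (h1' v hv k hk).1.1.1.1, fun v hv k hk => (h1' v hv k hk).1.1.1.2,
    fun v hv k hk => (h1' v hv k hk).1.1.2, ?_, fun v hv k hk => (h1' v hv k hk).2, ?_, ?_⟩
  · intro v hv k hk
    rcases (h1' v hv k hk).1.2 with (h | h) | h
    · exact ⟨0, by norm_num, h⟩
    · exact ⟨1, by norm_num, h⟩
    · exact ⟨2, by norm_num, h⟩
  · intro v hv k l hk hl hkl
    obtain ⟨⟨a, b⟩, c⟩ := h2' v hv
    interval_cases k <;> interval_cases l <;> simp_all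
  · intro e he
    obtain ⟨⟨a, b⟩, c⟩ := h3' e he
    refine ⟨a, b, ?_⟩
    rcases c with (h | h) | h
    · exact ⟨0, by norm_num, h⟩
    · exact ⟨1, by norm_num, h⟩
    · exact ⟨2, by norm_num, h⟩

/-- the graph of a table -/
def gr (hT : OK T) : SimpleGraph (Fin T.n) where
  Adj u v := ∃ k, k < 3 ∧ T.nb u.1 k = v.1
  symm := by
    constructor
    rintro u v ⟨k, hk, h⟩
    obtain ⟨l, hl, h1, h2⟩ := hT.back u.1 u.2 k hk
    refine ⟨l, hl, ?_⟩
    rw [← h]; exact h1
  loopless := by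
    constructor
    rintro u ⟨k, hk, h⟩
    exact hT.nb_ne u.1 u.2 k hk h

instance (hT : OK T) : DecidableRel (gr T hT).Adj := fun u v =>
  decidable_of_iff (adjb T u.1 v.1 = true) (by
    simp only [adjb, Bool.or_eq_true, beq_iff_eq, gr]
    constructor
    · rintro ((h | h) | h)
      · exact ⟨0, by norm_num, h⟩
      · exact ⟨1, by norm_num, h⟩
      · exact ⟨2, by norm_num, h⟩
    · rintro ⟨k, hk, h⟩
      interval_cases k <;> simp_all)

variable {T}

/-- neighbour as an element of `Fin n` -/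
def nbF (hT : OK T) (v : Fin T.n) (k : Fin 3) : Fin T.n := ⟨T.nb v.1 k.1, hT.nb_lt v.1 v.2 k.1 k.2⟩

theorem nbF_inj (hT : OK T) (v : Fin T.n) : Function.Injective (nbF hT v) := by
  intro k l h
  have : T.nb v.1 k.1 = T.nb v.1 l.1 := congrArg Fin.val h
  exact Fin.ext (hT.inj v.1 v.2 k.1 l.1 k.2 l.2 this)

theorem adj_iff (hT : OK T) (u v : Fin T.n) : (gr T hT).Adj u v ↔ ∃ k : Fin 3, nbF hT u k = v := by
  constructor
  · rintro ⟨k, hk, h⟩
    exact ⟨⟨k, hk⟩, Fin.ext h⟩
  · rintro ⟨k, h⟩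
    exact ⟨k.1, k.2, congrArg Fin.val h⟩

theorem nbhd (hT : OK T) (v : Fin T.n) :
    (gr T hT).neighborFinset v = Finset.univ.image (nbF hT v) := by
  ext w
  simp only [SimpleGraph.mem_neighborFinset, adj_iff, Finset.mem_image, Finset.mem_univ, true_and]

theorem regular (hT : OK T) : (gr T hT).IsRegularOfDegree 3 := by
  intro v
  rw [← SimpleGraph.card_neighborFinset_eq_degree, nbhd,
    Finset.card_image_of_injective _ (nbF_inj hT v)]
  rfl

/-- sums over all vertices of a function supported on the neighbourhood -/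
theorem sum_nb {M : Type*} [AddCommMonoid M] (hT : OK T) (v : Fin T.n) (g : Fin T.n → M)
    (hg : ∀ w, ¬ (gr T hT).Adj v w → g w = 0) :
    ∑ w, g w = g (nbF hT v 0) + g (nbF hT v 1) + g (nbF hT v 2) := by
  classical
  rw [← Finset.sum_subset (Finset.subset_univ (Finset.univ.image (nbF hT v)))]
  · rw [Finset.sum_image (fun a _ b _ h => nbF_inj hT v h)]
    simp [Fin.sum_univ_three]
  · intro w _ hw
    apply hg
    rw [adj_iff]
    rintro ⟨k, hk⟩
    exact hw (Finset.mem_image.2 ⟨k, Finset.mem_univ _, hk⟩)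

/-! ### girth -/

/-- no triangle, no 4-cycle -/
def okGirth (T : Tab) : Bool :=
  allLt T.n (fun v => allLt 3 (fun k => allLt 3 (fun l =>
    (k == l) || (!(adjb T (T.nb v k) (T.nb v l)) &&
      allLt 3 (fun a => allLt 3 (fun b =>
        !(T.nb (T.nb v k) a == T.nb (T.nb v l) b) || (T.nb (T.nb v k) a == v)))))))

theorem adjb_iff (hT : OK T) (u v : Fin T.n) : adjb T u.1 v.1 = true ↔ (gr T hT).Adj u v := by
  simp only [adjb, Bool.or_eq_true, beq_iff_eq, gr]
  constructor
  · rintro ((h | h) | h)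
    · exact ⟨0, by norm_num, h⟩
    · exact ⟨1, by norm_num, h⟩
    · exact ⟨2, by norm_num, h⟩
  · rintro ⟨k, hk, h⟩
    interval_cases k <;> simp_all

theorem no3 (hT : OK T) (h : okGirth T = true) (v a b : Fin T.n) (ha : (gr T hT).Adj v a)
    (hb : (gr T hT).Adj v b) (hab : a ≠ b) : ¬ (gr T hT).Adj a b := by
  obtain ⟨k, rfl⟩ := (adj_iff hT v a).1 ha
  obtain ⟨l, rfl⟩ := (adj_iff hT v b).1 hb
  have h1 := allLt_spec 3 _ (allLt_spec 3 _ (allLt_spec _ _ h v.1 v.2) k.1 k.2) l.1 l.2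
  simp only [Bool.or_eq_true, Bool.and_eq_true, beq_iff_eq] at h1
  rcases h1 with h1 | h1
  · exact absurd (congrArg (nbF hT v) (Fin.ext h1)) hab
  · intro hh
    have := (adjb_iff hT (nbF hT v k) (nbF hT v l)).2 hh
    have h2 := h1.1
    simp only [nbF] at this
    rw [this] at h2
    exact absurd h2 (by decide)

theorem no4 (hT : OK T) (h : okGirth T = true) (v a b w : Fin T.n) (ha : (gr T hT).Adj v a)
    (hb : (gr T hT).Adj v b) (hab : a ≠ b) (haw : (gr T hT).Adj a w) (hbw : (gr T hT).Adj b w) :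
    w = v := by
  obtain ⟨k, rfl⟩ := (adj_iff hT v a).1 ha
  obtain ⟨l, rfl⟩ := (adj_iff hT v b).1 hb
  have h1 := allLt_spec 3 _ (allLt_spec 3 _ (allLt_spec _ _ h v.1 v.2) k.1 k.2) l.1 l.2
  simp only [Bool.or_eq_true, Bool.and_eq_true, beq_iff_eq] at h1
  rcases h1 with h1 | h1
  · exact absurd (congrArg (nbF hT v) (Fin.ext h1)) hab
  · obtain ⟨i, hi⟩ := (adj_iff hT _ w).1 haw
    obtain ⟨j, hj⟩ := (adj_iff hT _ w).1 hbw
    have h2 := allLt_spec 3 _ (allLt_spec 3 _ h1.2 i.1 i.2) j.1 j.2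
    simp only [Bool.or_eq_true, beq_iff_eq, Bool.not_eq_true', beq_eq_false_iff_ne, ne_eq] at h2
    have hi' : T.nb (T.nb v.1 k.1) i.1 = w.1 := congrArg Fin.val hi
    have hj' : T.nb (T.nb v.1 l.1) j.1 = w.1 := congrArg Fin.val hj
    rcases h2 with h2 | h2
    · exact absurd (hi'.trans hj'.symm) h2
    · exact Fin.ext (hi'.symm.trans h2)

theorem girth5 (hT : OK T) (h : okGirth T = true) : 5 ≤ (gr T hT).egirth := by
  rw [SimpleGraph.le_egirth]
  intro a w hw
  by_contra hlt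
  have hlen3 : 3 ≤ w.length := hw.three_le_length
  have hlt' : w.length < 5 := by
    by_contra hh
    exact hlt (by exact_mod_cast not_lt.1 hh)
  cases w with
  | nil => simp at hlen3
  | @cons _ b _ h1 w1 =>
    cases w1 with
    | nil => simp at hlen3
    | @cons _ c _ h2 w2 =>
      cases w2 with
      | nil => simp at hlen3
      | @cons _ d _ h3 w3 =>
        cases w3 with
        | nil =>
          -- a b c a
          have : ¬ (gr T hT).Adj b c := no3 hT h a b c h1 h3.symm h2.ne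
          exact this h2
        | @cons _ e _ h4 w4 =>
          cases w4 with
          | nil =>
            -- a b c d a : edges ab bc cd da
            have hnd := hw.2
            simp only [SimpleGraph.Walk.support_cons, SimpleGraph.Walk.support_nil, List.tail_cons,
              List.nodup_cons, List.mem_cons, not_or] at hnd
            have hbd : b ≠ d := by tauto
            have hca : c ≠ a := by tauto
            exact hca (no4 hT h a b d c h1 h4.symm hbd h2 h3.symm)
          | cons h5 w5 => simp at hlt'; omega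

end Pool.Agent.H425Sn
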