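import Pool.Agent.H425Sn.Bic
import Pool.Agent.H425Sn.Dp

set_option autoImplicit false
set_option linter.unusedVariables false

namespace Pool.Agent.H425Sn

variable {T : Tab}

theorem no_gflow (hT : OK T) (β : ℕ → ℕ) (K : ℕ) (P : List Op)
    (hr : run T β K P (List.replicate K 0) 1 = true) (g : Fin T.n → Fin T.n → ℕ)
    (hs : ∀ u v, (gr T hT).Adj u v → g u v = g v u)
    (h1 : ∀ u v, (gr T hT).Adj u v → 1 ≤ g u v ∧ g u v < 4)
    (hv : ∀ v : Fin T.n, g v (nbF hT v 0) ^^^ g v (nbF hT v 1) ^^^ g v (nbF hT v 2) = β v.1) : False := by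
  let F : ℕ → ℕ := fun e => if h : T.eu e < T.n ∧ T.ev e < T.n then g ⟨T.eu e, h.1⟩ ⟨T.ev e, h.2⟩ else 1
  have hF : ∀ v : Fin T.n, ∀ k : Fin 3, F (T.ed v.1 k.1) = g v (nbF hT v k) := by
    intro v k
    have he := hT.ee _ (hT.ed_lt v.1 v.2 k.1 k.2)
    simp only [F, dif_pos (And.intro he.1 he.2.1)]
    rcases hT.ends v.1 v.2 k.1 k.2 with h | h
    · have e1 : (⟨T.eu (T.ed v.1 k.1), he.1⟩ : Fin T.n) = v := Fin.ext h.1
      have e2 : (⟨T.ev (T.ed v.1 k.1), he.2.1⟩ : Fin T.n) = nbF hT v k := Fin.ext h.2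
      rw [e1, e2]
    · have e1 : (⟨T.eu (T.ed v.1 k.1), he.1⟩ : Fin T.n) = nbF hT v k := Fin.ext h.2
      have e2 : (⟨T.ev (T.ed v.1 k.1), he.2.1⟩ : Fin T.n) = v := Fin.ext h.1
      rw [e1, e2]
      exact hs _ _ (SimpleGraph.Adj.symm ⟨k.1, k.2, rfl⟩)
  refine no_flow T hT β K P hr F ?_ ?_
  · intro e he
    obtain ⟨a, b, k, hk, hkk⟩ := hT.ee e he
    simp only [F, dif_pos (And.intro a b)]
    exact h1 _ _ ⟨k, hk, hkk⟩
  · intro v hvn
    have := hv ⟨v, hvn⟩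
    rw [← hF ⟨v, hvn⟩ 0, ← hF ⟨v, hvn⟩ 1, ← hF ⟨v, hvn⟩ 2] at this
    exact this

/-- not 3-edge-colourable -/
theorem no_col (hT : OK T) (K : ℕ) (P : List Op)
    (hr : run T (fun _ => 0) K P (List.replicate K 0) 1 = true) :
    ¬ ∃ c : Fin T.n → Fin T.n → Fin 3,
        (∀ u v, (gr T hT).Adj u v → c u v = c v u) ∧
        (∀ u v w, (gr T hT).Adj u v → (gr T hT).Adj u w → v ≠ w → c u v ≠ c u w) := by
  rintro ⟨c, hc1, hc2⟩
  refine no_gflow hT _ K P hr (fun u v => (c u v).1 + 1) ?_ ?_ ?_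
  · intro u v huv
    simp only [hc1 u v huv]
  · intro u v _
    have := (c u v).2
    omega
  · intro v
    have ha : ∀ k : Fin 3, (gr T hT).Adj v (nbF hT v k) := fun k => ⟨k.1, k.2, rfl⟩
    have h01 := hc2 v _ _ (ha 0) (ha 1) (fun h => absurd (nbF_inj hT v h) (by decide))
    have h02 := hc2 v _ _ (ha 0) (ha 2) (fun h => absurd (nbF_inj hT v h) (by decide))
    have h12 := hc2 v _ _ (ha 1) (ha 2) (fun h => absurd (nbF_inj hT v h) (by decide))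
    generalize c v (nbF hT v 0) = p at h01 h02
    generalize c v (nbF hT v 1) = q at h01 h12
    generalize c v (nbF hT v 2) = r at h02 h12
    revert h01 h02 h12
    revert p q r
    decide

def zc (p : ZMod 2 × ZMod 2) : ℕ := p.1.val + 2 * p.2.val

theorem zc_add : ∀ p q : ZMod 2 × ZMod 2, zc (p + q) = zc p ^^^ zc q := by decide
theorem zc_neg : ∀ p : ZMod 2 × ZMod 2, zc (-p) = zc p := by decide
theorem zc_lt : ∀ p : ZMod 2 × ZMod 2, zc p < 4 := by decide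
theorem zc_pos : ∀ p : ZMod 2 × ZMod 2, p ≠ 0 → 1 ≤ zc p := by decide

theorem no_z22 (hT : OK T) (β : ℕ → ℕ) (K : ℕ) (P : List Op)
    (hr : run T β K P (List.replicate K 0) 1 = true) (b : Fin T.n → ZMod 2 × ZMod 2)
    (hb : ∀ v, zc (b v) = β v.1) :
    ¬ ∃ f : Fin T.n → Fin T.n → ZMod 2 × ZMod 2,
        (∀ u v, (gr T hT).Adj u v → f u v ≠ 0) ∧ (∀ u v, ¬ (gr T hT).Adj u v → f u v = 0) ∧
        (∀ u v, f u v = - f v u) ∧ ∀ v, ∑ u, f v u = b v := by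
  rintro ⟨f, h1, h2, h3, h4⟩
  refine no_gflow hT β K P hr (fun u v => zc (f u v)) ?_ ?_ ?_
  · intro u v huv
    show zc (f u v) = zc (f v u)
    rw [h3 u v, zc_neg]
  · intro u v huv
    exact ⟨zc_pos _ (h1 u v huv), zc_lt _⟩
  · intro v
    rw [← zc_add, ← zc_add, ← hb v, ← h4 v, sum_nb hT v (f v) (fun w hw => h2 v w hw)]

theorem neg_statement (hT : OK T) (hg : okGirth T = true) (L : ℕ → ℕ) (hL : okLab T L = true)
    (hC : okCut T L = true) (ht : okTree T = true) (K : ℕ) (P : List Op)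
    (h0 : run T (fun _ => 0) K P (List.replicate K 0) 1 = true) (β : ℕ → ℕ)
    (h1 : run T β K P (List.replicate K 0) 1 = true)
    (hbic : ∀ x, x < T.n → ∀ y, y < x → ∃ W, okPair T x y W = true)
    (b : Fin T.n → ZMod 2 × ZMod 2) (hb : ∀ v, zc (b v) = β v.1) (hsum : ∑ v, b v = 0) (hne : b ≠ 0) :
    ¬ (∀ (n : ℕ) (G : SimpleGraph (Fin n)) [DecidableRel G.Adj],
    G.IsRegularOfDegree 3 →
    5 ≤ G.egirth →
    (∀ S : Finset (Fin n),
      (∃ (v : Fin n) (w : G.Walk v v), w.IsCycle ∧ ∀ x ∈ w.support, x ∈ S) →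
      (∃ (v : Fin n) (w : G.Walk v v), w.IsCycle ∧ ∀ x ∈ w.support, x ∉ S) →
      4 ≤ ((Finset.univ : Finset (Fin n × Fin n)).filter
            (fun p => p.1 ∈ S ∧ p.2 ∉ S ∧ G.Adj p.1 p.2)).card) →
    (¬ ∃ c : Fin n → Fin n → Fin 3,
        (∀ u v, G.Adj u v → c u v = c v u) ∧
        (∀ u v w, G.Adj u v → G.Adj u w → v ≠ w → c u v ≠ c u w)) →
    (∀ x y : Fin n, x ≠ y → ∃ c : Fin n → Fin n → Fin 3,
        (∀ u v, u ≠ x → u ≠ y → v ≠ x → v ≠ y → G.Adj u v → c u v = c v u) ∧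
        (∀ u v w, u ≠ x → u ≠ y → v ≠ x → v ≠ y → w ≠ x → w ≠ y →
            G.Adj u v → G.Adj u w → v ≠ w → c u v ≠ c u w)) →
    (∀ b : Fin n → ZMod 2 × ZMod 2, ∑ v, b v = 0 → b ≠ 0 →
      ∃ f : Fin n → Fin n → ZMod 2 × ZMod 2,
        (∀ u v, G.Adj u v → f u v ≠ 0) ∧ (∀ u v, ¬ G.Adj u v → f u v = 0) ∧
        (∀ u v, f u v = - f v u) ∧ ∀ v, ∑ u, f v u = b v) ∧
    (∀ b : Fin n → ZMod 4, ∑ v, b v = 0 → b ≠ 0 →
      ∃ f : Fin n → Fin n → ZMod 4,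
        (∀ u v, G.Adj u v → f u v ≠ 0) ∧ (∀ u v, ¬ G.Adj u v → f u v = 0) ∧
        (∀ u v, f u v = - f v u) ∧ ∀ v, ∑ u, f v u = b v)) := by
  intro H
  have h := (H T.n (gr T hT) (regular hT) (girth5 hT hg) (fun S a c => cyc4 hT L hL hC ht S a c)
    (no_col hT K P h0) (fun x y hxy => bicrit hT hbic x y hxy)).1 b hsum hne
  exact no_z22 hT β K P h1 b hb h

end Pool.Agent.H425Sn
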